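import Pool.Agent.Helper57.MT.Goals
import Pool.Agent.Helper73.RR.RK
import Pool.Agent.Helper37.PP.HM

/-!
# Project MC2 (MP_69be96_nt): packet ZS2
-/

set_option autoImplicit false

namespace Pool.Agent.Helper86.MT

open Finset Filter Topology
open Pool.Agent.Helper57.MT
open Pool.Agent.Helper23.MC (ZZ)

theorem fac_pos {l : ℕ} (hl : l.Prime) : 0 < 1 - 1 / (l : ℝ) := by
  have h1 : (1 : ℝ) < l := by exact_mod_cast hl.one_lt
  have h2 : 1 / (l : ℝ) < 1 := by
    rw [div_lt_one (by linarith)]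
    exact h1
  linarith

theorem prod_pos' (s : Finset ℕ) : 0 < ∏ l ∈ s.filter Nat.Prime, (1 - 1 / (l : ℝ)) :=
  Finset.prod_pos fun _ hl => fac_pos (mem_filter.1 hl).2

theorem prod_split {K1 t : ℕ} (h : K1 ≤ t) :
    (∏ l ∈ (Icc 1 K1).filter Nat.Prime, (1 - 1 / (l : ℝ))) *
      ∏ l ∈ (Ioc K1 t).filter Nat.Prime, (1 - 1 / (l : ℝ)) =
      ∏ l ∈ (Icc 1 t).filter Nat.Prime, (1 - 1 / (l : ℝ)) := by
  have e : (Icc 1 t).filter Nat.Prime =
      ((Icc 1 K1).filter Nat.Prime) ∪ ((Ioc K1 t).filter Nat.Prime) := by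
    ext p
    simp only [mem_filter, mem_Icc, mem_union, mem_Ioc]
    constructor
    · rintro ⟨⟨h1, h2⟩, h3⟩
      rcases le_or_gt p K1 with h4 | h4
      · exact Or.inl ⟨⟨h1, h4⟩, h3⟩
      · exact Or.inr ⟨⟨h4, h2⟩, h3⟩
    · rintro (⟨⟨h1, h2⟩, h3⟩ | ⟨⟨h1, h2⟩, h3⟩)
      · exact ⟨⟨h1, h2.trans h⟩, h3⟩
      · exact ⟨⟨h3.one_le, h2⟩, h3⟩
  rw [e, prod_union]
  rw [Finset.disjoint_left]
  intro p hp hp'
  rw [mem_filter, mem_Icc] at hp
  rw [mem_filter, mem_Ioc] at hp'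
  omega

/-- the numerical conditions for large `w` -/
theorem large (a b c : ℝ) (n : ℕ) : ∃ w0 : ℕ, ∀ w : ℕ, w0 ≤ w →
    a ≤ Real.log w ∧ b ≤ Real.log (Real.log w) ∧
    c * Real.log (Real.log w) ^ n ≤ Real.log w ∧ 1 ≤ w := by
  have h1 : Tendsto (fun w : ℕ => Real.log (w : ℝ)) atTop atTop :=
    Real.tendsto_log_atTop.comp tendsto_natCast_atTop_atTop
  have h2 : Tendsto (fun w : ℕ => Real.log (Real.log (w : ℝ))) atTop atTop :=
    Real.tendsto_log_atTop.comp h1
  have h3 : ∀ᶠ x : ℝ in atTop, c * Real.log x ^ n ≤ x := by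
    have h4 := (Real.isLittleO_pow_log_id_atTop (n := n)).bound
      (show (0 : ℝ) < 1 / (|c| + 1) by positivity)
    filter_upwards [h4, eventually_ge_atTop (1 : ℝ)] with x hx hx1
    rw [Real.norm_eq_abs, id, Real.norm_eq_abs, abs_of_nonneg (by linarith : (0 : ℝ) ≤ x)] at hx
    have h5 : (0 : ℝ) < |c| + 1 := by positivity
    have h6 : (|c| + 1) * |Real.log x ^ n| ≤ x := by
      have := mul_le_mul_of_nonneg_left hx h5.le
      have h7 : (|c| + 1) * (1 / (|c| + 1) * x) = x := by field_simp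
      rwa [h7] at this
    calc c * Real.log x ^ n ≤ |c| * |Real.log x ^ n| := by
          rw [← abs_mul]
          exact le_abs_self _
      _ ≤ (|c| + 1) * |Real.log x ^ n| := by
          apply mul_le_mul_of_nonneg_right _ (abs_nonneg _)
          linarith
      _ ≤ x := h6
  obtain ⟨w0, hw0⟩ := ((h1.eventually_ge_atTop a).and ((h2.eventually_ge_atTop b).and
    ((h1.eventually h3).and (eventually_ge_atTop 1)))).exists_forall_of_atTop
  exact ⟨w0, hw0⟩

/-- the final numerical estimate -/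
theorem final_num {P Q CM CA CT CN M1 K LL W Y T L S1 S2 lL : ℝ} {n : ℕ}
    (hP : 0 < P) (hQ : 0 < Q) (hCM : 0 < CM) (hPQ : P * Q ≤ CM / T) (hT : 0 < T)
    (hCA : 1 ≤ CA) (hCT : 1 ≤ CT) (hCN : 1 ≤ CN) (hM1 : 0 < M1) (hK : 0 ≤ K)
    (hW : 1 ≤ W) (hLL : 1 ≤ LL) (hY : 0 ≤ Y) (hL : W / 2 ≤ L)
    (hS2 : S2 ≤ 8) (hS1 : S1 ≤ CN * lL ^ n) (hlL : lL ≤ LL) (hlL0 : 0 ≤ lL)
    (hA : 8 * M1 * (K + 2) * CN * LL ^ n ≤ W) (hB : 8 * CT / P ≤ LL) :
    4 * Q * (2 * P * CA * (Y * LL / W) * S2 + 2 * M1 * P * ((K + 2) * (Y / W ^ 3)) * S1 +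
      1 / L * (CT * Y)) ≤ CM * (64 * CA + 2) * (Y * LL / (W * T)) := by
  have hW0 : 0 < W := by linarith
  have hL0 : 0 < L := by linarith
  have hPQ0 : 0 < P * Q := mul_pos hP hQ
  have hX : 0 ≤ Y * LL / W := by positivity
  -- first part
  have h1 : 4 * Q * (2 * P * CA * (Y * LL / W) * S2) ≤ CM / T * (64 * CA * (Y * LL / W)) := by
    calc 4 * Q * (2 * P * CA * (Y * LL / W) * S2)
        ≤ 4 * Q * (2 * P * CA * (Y * LL / W) * 8) := by
          apply mul_le_mul_of_nonneg_left _ (by positivity)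
          apply mul_le_mul_of_nonneg_left hS2 (by positivity)
      _ = P * Q * (64 * CA * (Y * LL / W)) := by ring
      _ ≤ CM / T * (64 * CA * (Y * LL / W)) := mul_le_mul_of_nonneg_right hPQ (by positivity)
  -- second part
  have h2 : 4 * Q * (2 * M1 * P * ((K + 2) * (Y / W ^ 3)) * S1) ≤ CM / T * (Y * LL / W) := by
    have h3 : S1 ≤ CN * LL ^ n := hS1.trans (mul_le_mul_of_nonneg_left
      (pow_le_pow_left₀ hlL0 hlL n) (by linarith))
    calc 4 * Q * (2 * M1 * P * ((K + 2) * (Y / W ^ 3)) * S1)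
        ≤ 4 * Q * (2 * M1 * P * ((K + 2) * (Y / W ^ 3)) * (CN * LL ^ n)) := by
          apply mul_le_mul_of_nonneg_left _ (by positivity)
          apply mul_le_mul_of_nonneg_left h3 (by positivity)
      _ = P * Q * ((8 * M1 * (K + 2) * CN * LL ^ n) * (Y / W ^ 3)) := by ring
      _ ≤ P * Q * (W * (Y / W ^ 3)) := by
          apply mul_le_mul_of_nonneg_left _ hPQ0.le
          exact mul_le_mul_of_nonneg_right hA (by positivity)
      _ ≤ P * Q * (Y * LL / W) := by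
          apply mul_le_mul_of_nonneg_left _ hPQ0.le
          have e1 : W * (Y / W ^ 3) = Y * 1 / W * (1 / W) := by
            field_simp
          rw [e1]
          have h5 : 1 / W ≤ 1 := by
            rw [div_le_one hW0]
            exact hW
          calc Y * 1 / W * (1 / W) ≤ Y * 1 / W * 1 :=
                mul_le_mul_of_nonneg_left h5 (by positivity)
            _ ≤ Y * LL / W := by
                rw [mul_one]
                apply div_le_div_of_nonneg_right _ hW0.le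
                exact mul_le_mul_of_nonneg_left hLL hY
      _ ≤ CM / T * (Y * LL / W) := mul_le_mul_of_nonneg_right hPQ hX
  -- third part
  have h4 : 4 * Q * (1 / L * (CT * Y)) ≤ CM / T * (Y * LL / W) := by
    have e1 : 4 * Q * (1 / L * (CT * Y)) = P * Q * (Y * (4 * CT / P) * (1 / L)) := by
      field_simp
    rw [e1]
    refine le_trans ?_ (mul_le_mul_of_nonneg_right hPQ hX)
    apply mul_le_mul_of_nonneg_left _ hPQ0.le
    have h5 : 1 / L ≤ 2 / W := by
      rw [div_le_div_iff₀ hL0 hW0]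
      linarith
    calc Y * (4 * CT / P) * (1 / L) ≤ Y * (4 * CT / P) * (2 / W) :=
          mul_le_mul_of_nonneg_left h5 (by positivity)
      _ = Y * (8 * CT / P) / W := by ring
      _ ≤ Y * LL / W := by
          apply div_le_div_of_nonneg_right _ hW0.le
          exact mul_le_mul_of_nonneg_left hB hY
  have e2 : CM * (64 * CA + 2) * (Y * LL / (W * T)) =
      CM / T * (64 * CA * (Y * LL / W)) + CM / T * (Y * LL / W) + CM / T * (Y * LL / W) := by
    field_simp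
    ring
  rw [e2, mul_add, mul_add]
  linarith

theorem zs2 (hZA2 : StmtZA2) (hZT : StmtZT) (hZP : StmtZP) (hZG : StmtZG) (hZF : StmtZF)
    (hZM : StmtZM) (hZN : StmtZN) (hSV1 : StmtSV1) : StmtZS2 := by
  classical
  obtain ⟨CA, hCA, wA, hA⟩ := hZA2
  obtain ⟨CM, hCM, hMP⟩ := Pool.Agent.Helper37.PP.mp
  refine ⟨max 1 (CM * (64 * CA + 2)), le_max_left _ _, fun K hK => ?_⟩
  obtain ⟨CT, hCT, hT⟩ := hZT K
  obtain ⟨wP, hP⟩ := hZP K hK
  obtain ⟨CN, hCN, hN⟩ := hZN K hK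
  set M1 := primorial (K ^ 2) with hM1
  have hM1p : 0 < M1 := primorial_pos _
  set P0 : ℝ := ∏ l ∈ (Icc 1 (K ^ 2)).filter Nat.Prime, (1 - 1 / (l : ℝ)) with hP0
  have hP0p : 0 < P0 := prod_pos' _
  obtain ⟨w1, hw1⟩ := large (max (max (M1 : ℝ) ((K : ℝ) ^ 2)) 4) (max 1 (8 * CT / P0))
    (8 * M1 * (K + 2) * CN) (2 * K)
  refine ⟨max w1 (max wA wP), fun w p Y t hw hp hwY hYw ht2 htw hlt hsm H hHY hHK hadm Bd hBd
    hBdc => ?_⟩
  obtain ⟨hWa, hLLa, hCa, hw1'⟩ := hw1 w ((le_max_left _ _).trans hw)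
  have hwA : wA ≤ w := (le_max_left _ _).trans ((le_max_right _ _).trans hw)
  have hwP : wP ≤ w := (le_max_right _ _).trans ((le_max_right _ _).trans hw)
  set W := Real.log w with hW
  set LL := Real.log W with hLL
  have hWM : (M1 : ℝ) ≤ W := (le_max_left _ _).trans ((le_max_left _ _).trans hWa)
  have hWK : (K : ℝ) ^ 2 ≤ W := (le_max_right _ _).trans ((le_max_left _ _).trans hWa)
  have hW4 : (4 : ℝ) ≤ W := (le_max_right _ _).trans hWa
  have hLL1 : 1 ≤ LL := (le_max_left _ _).trans hLLa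
  have hLLB : 8 * CT / P0 ≤ LL := (le_max_right _ _).trans hLLa
  have hW0 : 0 < W := by linarith
  have hKt : K ^ 2 ≤ t := by
    have h1 : ((K ^ 2 : ℕ) : ℝ) ≤ t := by
      push_cast
      have h2 : W ≤ W ^ 4 := le_self_pow₀ (by linarith) (by norm_num)
      linarith
    exact_mod_cast h1
  have htp : (0 : ℝ) < t := by
    have : 0 < t := by omega
    exact_mod_cast this
  have hlogt : 0 < Real.log t := Real.log_pos (by exact_mod_cast (by omega : 1 < t))
  obtain ⟨Q, hQ⟩ : ∃ Q : ℝ, Q = ∏ l ∈ (Ioc (K ^ 2) t).filter Nat.Prime, (1 - 1 / (l : ℝ)) :=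
    ⟨_, rfl⟩
  have hQp : 0 < Q := by
    rw [hQ]
    exact prod_pos' _
  have hPQ : P0 * Q ≤ CM / Real.log t := by
    rw [hP0, hQ, prod_split hKt]
    exact Pool.Agent.Helper73.RR.prod_le hMP hCM t ht2
  have hHne : H.Nonempty := by
    rw [← Finset.card_pos, hHK]
    omega
  obtain ⟨L, hLd⟩ : ∃ L : ℕ, L = ⌊W⌋₊ := ⟨_, rfl⟩
  have hLW : (L : ℝ) ≤ W := by
    rw [hLd]
    exact Nat.floor_le hW0.le
  have hLW' : W < L + 1 := by
    rw [hLd]
    exact Nat.lt_floor_add_one W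
  have hL3 : 3 ≤ L := by
    have : (3 : ℝ) < L + 1 := by linarith
    have h2 : ((3 : ℕ) : ℝ) < ((L + 1 : ℕ) : ℝ) := by
      push_cast
      exact this
    have h3 : 3 < L + 1 := by exact_mod_cast h2
    omega
  have hL3' : (3 : ℝ) ≤ L := by exact_mod_cast hL3
  obtain ⟨hN2, hN1⟩ := hN L hL3
  set Z := (ZZ Y t w Bd).filter (fun h => h ∉ H) with hZ
  have hZsub : ∀ h ∈ Z, h ∈ Icc 1 Y ∧ h ∉ H := by
    intro h hh
    obtain ⟨h1, h2⟩ := mem_filter.1 hh
    exact ⟨(mem_filter.1 h1).1, h2⟩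
  -- `Fs`
  have hFs0 : ∀ h, 0 ≤ Fs H (K ^ 2) p h := fun h => Finset.prod_nonneg fun l hl =>
    ((hSV1 H l (mem_filter.1 (mem_of_mem_erase hl)).2 hHne
      (hadm l (mem_filter.1 (mem_of_mem_erase hl)).2)).1 h).1
  have hFs1 : ∀ h, Fs H (K ^ 2) p h ≤ 1 := fun h => Finset.prod_le_one (fun l hl =>
    ((hSV1 H l (mem_filter.1 (mem_of_mem_erase hl)).2 hHne
      (hadm l (mem_filter.1 (mem_of_mem_erase hl)).2)).1 h).1) fun l hl =>
    ((hSV1 H l (mem_filter.1 (mem_of_mem_erase hl)).2 hHne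
      (hadm l (mem_filter.1 (mem_of_mem_erase hl)).2)).1 h).2
  set Th : ℕ → ℝ := fun h => ∏ l ∈ (Icc 1 L).filter Nat.Prime,
    (if Ht H l h then 1 + 2 / √(l : ℝ) else 1) with hTh
  have hTh0 : ∀ h, 0 ≤ Th h := fun h => Finset.prod_nonneg fun l _ => by
    split_ifs <;> positivity
  set ind : ℕ → ℕ → ℝ := fun e h => if ∀ l, l.Prime → l ∣ e → Ht H l h then 1 else 0 with hind
  -- pointwise
  have hpt : ∀ h ∈ Z, ∏ l ∈ ((Icc 1 t).filter Nat.Prime).erase p, sv H l h ≤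
      4 * Q * (∑ e ∈ SE (K ^ 2) L, (2 : ℝ) ^ e.primeFactors.card / e *
        (Fs H (K ^ 2) p h * ind e h) + 1 / L * Th h) := by
    intro h hh
    obtain ⟨hh1, hh2⟩ := hZsub h hh
    have h1 := hP w p Y t hwP hp hYw htw hlt H hHY hHK hadm h hh1 hh2
    rw [← hQ, ← hW, ← hLd] at h1
    refine h1.trans (mul_le_mul_of_nonneg_left ?_ (by positivity))
    have h2 := hZG (K ^ 2) L h H (by omega)
    refine (mul_le_mul_of_nonneg_left h2 (hFs0 h)).trans ?_
    rw [mul_add, Finset.mul_sum]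
    refine add_le_add (le_of_eq (Finset.sum_congr rfl fun e _ => ?_)) ?_
    · show Fs H (K ^ 2) p h * ((2 : ℝ) ^ e.primeFactors.card / e * ind e h) = _
      ring
    · have h3 : 0 ≤ 1 / (L : ℝ) * Th h := mul_nonneg (by positivity) (hTh0 h)
      calc Fs H (K ^ 2) p h * (1 / (L : ℝ) * Th h) ≤ 1 * (1 / (L : ℝ) * Th h) :=
            mul_le_mul_of_nonneg_right (hFs1 h) h3
        _ = 1 / (L : ℝ) * Th h := one_mul _
  have hsumT : ∑ h ∈ Z, Th h ≤ CT * Y := by
    refine le_trans ?_ (hT Y L H hHY hHK)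
    refine Finset.sum_le_sum_of_subset_of_nonneg (fun h hh => ?_) fun h _ _ => hTh0 h
    obtain ⟨hh1, hh2⟩ := hZsub h hh
    exact mem_sdiff.2 ⟨hh1, hh2⟩
  -- the classes
  have hcls : ∀ e ∈ SE (K ^ 2) L, ∑ h ∈ Z, Fs H (K ^ 2) p h * ind e h ≤
      (K : ℝ) ^ e.primeFactors.card * (2 * M1 * P0) *
        (CA * (Y * LL / (M1 * e * W)) + (K + 2) * (Y / W ^ 3)) := by
    intro e he
    rw [SE, mem_filter, mem_Icc] at he
    obtain ⟨⟨he1, he2⟩, he3, he4⟩ := he
    have hcop : Nat.Coprime M1 e := by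
      rw [Nat.coprime_iff_gcd_eq_one]
      by_contra hne
      obtain ⟨l, hl, hld⟩ := Nat.exists_prime_and_dvd hne
      have h1 : l ∣ M1 := hld.trans (Nat.gcd_dvd_left _ _)
      have h2 : l ∣ e := hld.trans (Nat.gcd_dvd_right _ _)
      have h3 := (he4 l hl h2).1
      have h4 := (hl.dvd_primorial_iff).1 h1
      omega
    have hsq : Squarefree (M1 * e) :=
      (Nat.squarefree_mul hcop).2 ⟨squarefree_primorial _, he3⟩
    have hsize : ((M1 * e : ℕ) : ℝ) ≤ W ^ 3 := by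
      push_cast
      have h1 : (e : ℝ) ≤ (L : ℝ) ^ 2 := by exact_mod_cast he2
      have h2 : (e : ℝ) ≤ W ^ 2 := h1.trans (pow_le_pow_left₀ (by positivity) hLW 2)
      calc (M1 : ℝ) * e ≤ W * W ^ 2 := mul_le_mul hWM h2 (by positivity) hW0.le
        _ = W ^ 3 := by ring
    have hcount : ∀ c : ℕ, ((Z.filter (fun h => h ≡ c [MOD M1 * e])).card : ℝ) ≤
        CA * (Y * LL / (M1 * e * W)) + (K + 2) * (Y / W ^ 3) := by
      intro c
      have h1 := hA w Y t (M1 * e) c hwA hwY hYw ht2 htw hsq hsize Bd hBd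
      have h2 : ((Z.filter (fun h => h ≡ c [MOD M1 * e])).card : ℝ) ≤
          (((ZZ Y t w Bd).filter (fun h => h ≡ c [MOD M1 * e])).card : ℝ) := by
        have h3 : (Z.filter (fun h => h ≡ c [MOD M1 * e])).card ≤
            ((ZZ Y t w Bd).filter (fun h => h ≡ c [MOD M1 * e])).card := by
          apply Finset.card_le_card
          intro h hh
          obtain ⟨a1, a2⟩ := mem_filter.1 hh
          exact mem_filter.2 ⟨(mem_filter.1 a1).1, a2⟩
        exact_mod_cast h3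
      have h4 : (Bd.card : ℝ) * (Y / t) ≤ (K + 1) * (Y / W ^ 3) := by
        have h5 : (Y : ℝ) / t ≤ Y / W ^ 4 :=
          div_le_div_of_nonneg_left (by positivity) (by positivity) hlt
        calc (Bd.card : ℝ) * (Y / t) ≤ ((K + 1) * W) * (Y / W ^ 4) :=
              mul_le_mul hBdc h5 (by positivity) (by positivity)
          _ = (K + 1) * (Y / W ^ 3) := by
              field_simp
      have h6 : (((M1 * e : ℕ) : ℝ)) = M1 * e := by push_cast; ring
      rw [h6] at h1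
      refine h2.trans (h1.trans ?_)
      have h7 : ((K : ℝ) + 2) * (Y / W ^ 3) = Y / W ^ 3 + (K + 1) * (Y / W ^ 3) := by ring
      rw [h7, ← add_assoc]
      exact add_le_add (add_le_add le_rfl hsm) h4
    have h8 := hZF H Z (K ^ 2) p e (CA * (Y * LL / (M1 * e * W)) + (K + 2) * (Y / W ^ 3)) hHne hadm
      he3 (fun l hl hle => (he4 l hl hle).1) hcount
    refine h8.trans ?_
    rw [hHK]
    have h9 := hZM H (K ^ 2) p hHne hp hadm
    have h10 : (0 : ℝ) ≤ CA * (Y * LL / (M1 * e * W)) + (K + 2) * (Y / W ^ 3) := by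
      have : (0 : ℝ) ≤ CA := by linarith
      positivity
    exact mul_le_mul_of_nonneg_right (mul_le_mul_of_nonneg_left h9 (by positivity)) h10
  -- summation
  have hsum : ∑ h ∈ Z, ∏ l ∈ ((Icc 1 t).filter Nat.Prime).erase p, sv H l h ≤
      4 * Q * (2 * P0 * CA * (Y * LL / W) *
        (∑ e ∈ SE (K ^ 2) L, (2 * (K : ℝ)) ^ e.primeFactors.card / (e : ℝ) ^ 2) +
        2 * M1 * P0 * ((K + 2) * (Y / W ^ 3)) *
        (∑ e ∈ SE (K ^ 2) L, (2 * (K : ℝ)) ^ e.primeFactors.card / (e : ℝ)) +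
        1 / L * (CT * Y)) := by
    refine (Finset.sum_le_sum hpt).trans ?_
    rw [← Finset.mul_sum, Finset.sum_add_distrib, ← Finset.mul_sum]
    refine mul_le_mul_of_nonneg_left ?_ (by positivity)
    refine add_le_add ?_ (mul_le_mul_of_nonneg_left hsumT (by positivity))
    rw [Finset.sum_comm, Finset.mul_sum, Finset.mul_sum, ← Finset.sum_add_distrib]
    refine Finset.sum_le_sum fun e he => ?_
    rw [← Finset.mul_sum]
    refine (mul_le_mul_of_nonneg_left (hcls e he) (by positivity)).trans (le_of_eq ?_)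
    have he0 : (e : ℝ) ≠ 0 := by
      rw [SE, mem_filter, mem_Icc] at he
      have : e ≠ 0 := by omega
      exact_mod_cast this
    have hM0 : (M1 : ℝ) ≠ 0 := by exact_mod_cast hM1p.ne'
    rw [mul_pow]
    field_simp
  refine hsum.trans ?_
  have hfin := final_num (P := P0) (Q := Q) (CM := CM) (CA := CA) (CT := CT) (CN := CN)
    (M1 := (M1 : ℝ)) (K := (K : ℝ)) (LL := LL) (W := W) (Y := (Y : ℝ)) (T := Real.log t)
    (L := (L : ℝ)) (lL := Real.log L) (n := 2 * K) hP0p hQp hCM hPQ hlogt hCA hCT hCN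
    (by exact_mod_cast hM1p) (by positivity) (by linarith) hLL1 (by positivity) (by linarith) hN2
    hN1 (Real.log_le_log (by linarith) hLW) (Real.log_nonneg (by linarith)) hCa hLLB
  refine hfin.trans ?_
  refine mul_le_mul_of_nonneg_right (le_max_right _ _) (by positivity)

end Pool.Agent.Helper86.MT
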